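import Mathlib
import Pool.Agent.R430.RB.Near

/-!
# How often `V b ^ {x n}` is near to an integer, for a uniformly distributed sequence `x`
-/

set_option autoImplicit false

open Finset Filter Topology
open scoped Real

namespace Pool.Agent.R430.RG

open Pool.Agent.R739.RD Pool.Agent.H534R3.UDist Pool.Agent.R430.RB

theorem nearG (x : ℕ → ℝ) (hUD : UD x) (b δ V : ℝ) (hb : 1 < b) (hδ0 : 0 < δ) (hδ1 : δ ≤ 1 / 2)
    (hV : 2 ≤ |V|) :
    ∀ᶠ N : ℕ in atTop,
      ((((range N).filter fun n : ℕ => dz (V * b ^ (Int.fract (x n))) < δ).card : ℕ) : ℝ) ≤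
        (8 * (b + 2) / Real.log b + 1) * δ * N := by
  set v : ℝ := |V| with hv
  have hv0 : 0 < v := by linarith
  have hb0 : 0 < b := by linarith
  have hlogb : 0 < Real.log b := Real.log_pos hb
  set K : Finset ℤ := Finset.Icc ⌊v⌋ (⌊b * v⌋ + 1) with hK
  set A : ℤ → ℝ := fun k => Real.log (((k : ℝ) - δ) / v) / Real.log b with hA
  set C : ℤ → ℝ := fun k => Real.log (((k : ℝ) + δ) / v) / Real.log b with hC
  -- bounds for k in K
  have hk : ∀ k ∈ K, v / 4 ≤ (k : ℝ) - δ := by
    intro k hkK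
    rw [hK, Finset.mem_Icc] at hkK
    have h1 : (⌊v⌋ : ℝ) ≤ k := by exact_mod_cast hkK.1
    have h2 : v < ⌊v⌋ + 1 := Int.lt_floor_add_one v
    have h3 : (2 : ℤ) ≤ ⌊v⌋ := by
      rw [Int.le_floor]
      exact_mod_cast hV
    have h4 : (2 : ℝ) ≤ ⌊v⌋ := by exact_mod_cast h3
    nlinarith
  have hAC : ∀ k ∈ K, A k ≤ C k := by
    intro k hkK
    have h1 := hk k hkK
    have h2 : 0 < (k : ℝ) - δ := by linarith [div_pos hv0 (show (0 : ℝ) < 4 by norm_num)]
    apply div_le_div_of_nonneg_right _ hlogb.le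
    apply Real.log_le_log (by positivity)
    apply div_le_div_of_nonneg_right _ hv0.le
    linarith
  have hdiff : ∀ k ∈ K, cl (C k) - cl (A k) ≤ 8 * δ / (v * Real.log b) := by
    intro k hkK
    refine (cl_sub (hAC k hkK)).trans ?_
    have h1 := hk k hkK
    have h2 : 0 < (k : ℝ) - δ := by linarith [div_pos hv0 (show (0 : ℝ) < 4 by norm_num)]
    have h3 : 0 < (k : ℝ) + δ := by linarith
    have h4 : C k - A k = Real.log (((k : ℝ) + δ) / ((k : ℝ) - δ)) / Real.log b := by
      show Real.log (((k : ℝ) + δ) / v) / Real.log b - Real.log (((k : ℝ) - δ) / v) / Real.log b = _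
      rw [← sub_div, Real.log_div h3.ne' hv0.ne', Real.log_div h2.ne' hv0.ne',
        Real.log_div h3.ne' h2.ne']
      ring
    rw [h4]
    have h5 : Real.log (((k : ℝ) + δ) / ((k : ℝ) - δ)) ≤ 8 * δ / v := by
      have h6 := Real.log_le_sub_one_of_pos (div_pos h3 h2)
      refine h6.trans ?_
      have h7 : ((k : ℝ) + δ) / ((k : ℝ) - δ) - 1 = 2 * δ / ((k : ℝ) - δ) := by
        field_simp
        ring
      rw [h7, div_le_div_iff₀ h2 hv0]
      nlinarith
    calc Real.log (((k : ℝ) + δ) / ((k : ℝ) - δ)) / Real.log b ≤ (8 * δ / v) / Real.log b :=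
          div_le_div_of_nonneg_right h5 hlogb.le
      _ = 8 * δ / (v * Real.log b) := by rw [div_div]
  have hcardK : (K.card : ℝ) ≤ (b + 2) * v := by
    rw [hK, Int.card_Icc]
    have h1 : ⌊v⌋ ≤ ⌊b * v⌋ := by
      apply Int.floor_le_floor
      nlinarith
    have h2 : ((⌊b * v⌋ + 1 + 1 - ⌊v⌋).toNat : ℝ) = (⌊b * v⌋ + 1 + 1 - ⌊v⌋ : ℝ) := by
      have h3 : ((⌊b * v⌋ + 1 + 1 - ⌊v⌋).toNat : ℤ) = ⌊b * v⌋ + 1 + 1 - ⌊v⌋ :=
        Int.toNat_of_nonneg (by linarith)
      exact_mod_cast h3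
    rw [h2]
    have h4 := Int.floor_le (b * v)
    have h5 := Int.lt_floor_add_one v
    nlinarith
  have hsum : ∑ k ∈ K, (cl (C k) - cl (A k)) ≤ 8 * (b + 2) / Real.log b * δ := by
    calc ∑ k ∈ K, (cl (C k) - cl (A k)) ≤ ∑ k ∈ K, 8 * δ / (v * Real.log b) :=
          Finset.sum_le_sum hdiff
      _ = (K.card : ℝ) * (8 * δ / (v * Real.log b)) := by
          rw [Finset.sum_const, nsmul_eq_mul]
      _ ≤ ((b + 2) * v) * (8 * δ / (v * Real.log b)) :=
          mul_le_mul_of_nonneg_right hcardK (by positivity)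
      _ = 8 * (b + 2) / Real.log b * δ := by
          field_simp
  have hlim : Tendsto (fun N : ℕ => ∑ k ∈ K, (((Finset.range N).filter (fun n : ℕ =>
      cl (A k) ≤ Int.fract (x n) ∧ Int.fract (x n) < cl (C k))).card : ℝ) / (N : ℝ))
      atTop (𝓝 (∑ k ∈ K, (cl (C k) - cl (A k)))) := by
    refine tendsto_finset_sum _ fun k hkK => ?_
    exact hUD (cl (A k)) (cl (C k)) (cl_nonneg _) (cl_mono (hAC k hkK)) (cl_le_one _)
  have hlt : ∑ k ∈ K, (cl (C k) - cl (A k)) < (8 * (b + 2) / Real.log b + 1) * δ := by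
    have : (8 * (b + 2) / Real.log b + 1) * δ = 8 * (b + 2) / Real.log b * δ + δ := by ring
    rw [this]
    linarith
  filter_upwards [hlim.eventually (gt_mem_nhds hlt), eventually_gt_atTop 0] with N hN hN0
  have hN0' : (0 : ℝ) < N := by exact_mod_cast hN0
  rw [← Finset.sum_div, div_lt_iff₀ hN0'] at hN
  refine le_trans ?_ hN.le
  have hsub : ((range N).filter fun n : ℕ => dz (V * b ^ (Int.fract (x n))) < δ) ⊆
      K.biUnion (fun k => (Finset.range N).filter (fun n : ℕ =>
      cl (A k) ≤ Int.fract (x n) ∧ Int.fract (x n) < cl (C k))) := by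
    intro n hn
    rw [Finset.mem_filter] at hn
    obtain ⟨hnN, hn⟩ := hn
    rw [dz_abs_mul] at hn
    set θ := Int.fract (x n) with hθ
    have hθ0 : 0 ≤ θ := Int.fract_nonneg _
    have hθ1 : θ < 1 := Int.fract_lt_one _
    set y : ℝ := v * b ^ θ with hy
    have hbθ0 : 0 < b ^ θ := Real.rpow_pos_of_pos hb0 θ
    have hbθ1 : 1 ≤ b ^ θ := Real.one_le_rpow hb.le hθ0
    have hbθ2 : b ^ θ < b := by
      calc b ^ θ < b ^ (1 : ℝ) := Real.rpow_lt_rpow_of_exponent_lt hb hθ1
        _ = b := Real.rpow_one b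
    have hy1 : v ≤ y := by
      rw [hy]; nlinarith
    have hy2 : y < b * v := by
      rw [hy]; nlinarith
    have hyk : |y - round y| < δ := hn
    rw [abs_lt] at hyk
    have hkK : round y ∈ K := by
      rw [hK, Finset.mem_Icc]
      constructor
      · have h1 : (⌊v⌋ : ℝ) < (round y : ℝ) + 1 := by
          have := Int.floor_le v
          linarith [hyk.2]
        have h2 : ⌊v⌋ < round y + 1 := by exact_mod_cast h1
        omega
      · have h1 : (round y : ℝ) < (⌊b * v⌋ : ℝ) + 2 := by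
          have := Int.lt_floor_add_one (b * v)
          linarith [hyk.1]
        have h2 : round y < ⌊b * v⌋ + 2 := by exact_mod_cast h1
        omega
    have h1 := hk _ hkK
    have h2 : 0 < (round y : ℝ) - δ := by
      linarith [div_pos hv0 (show (0 : ℝ) < 4 by norm_num)]
    have h3 : 0 < (round y : ℝ) + δ := by linarith
    have hyv : y / v = b ^ θ := by
      rw [hy]; field_simp
    have hlogy : Real.log (y / v) = θ * Real.log b := by
      rw [hyv, Real.log_rpow hb0]
    have hAθ : A (round y) ≤ θ := by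
      show Real.log (((round y : ℝ) - δ) / v) / Real.log b ≤ θ
      rw [div_le_iff₀ hlogb, ← hlogy]
      apply Real.log_le_log (by positivity)
      apply div_le_div_of_nonneg_right _ hv0.le
      linarith [hyk.1]
    have hCθ : θ < C (round y) := by
      show θ < Real.log (((round y : ℝ) + δ) / v) / Real.log b
      rw [lt_div_iff₀ hlogb, ← hlogy]
      apply Real.log_lt_log (by positivity)
      apply div_lt_div_of_pos_right _ hv0
      linarith [hyk.2]
    rw [Finset.mem_biUnion]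
    refine ⟨round y, hkK, ?_⟩
    rw [Finset.mem_filter]
    refine ⟨hnN, ?_, ?_⟩
    · unfold cl
      exact (min_le_right _ _).trans (max_le hθ0 hAθ)
    · unfold cl
      exact lt_min hθ1 (lt_max_of_lt_right hCθ)
  have hc := (Finset.card_le_card hsub).trans Finset.card_biUnion_le
  exact_mod_cast hc

end Pool.Agent.R430.RG
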