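import Mathlib
import Pool.Agent.R430.RB.Block
import Pool.Agent.R430.RG.Near

/-!
# The blocks of digits are small on average, for lacunary sequences
-/

set_option autoImplicit false

open Finset Filter Topology MeasureTheory ProbabilityTheory
open scoped Real

namespace Pool.Agent.R430.RG

open Pool.Agent.R739.RD Pool.Agent.H534R3.UDist Pool.Agent.R430.RB

/-- positions and mantissas of the numbers `s n` -/
structure Pos (b : ℝ) (s σ x : ℕ → ℝ) (mm : ℕ → ℕ) : Prop where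
  sign : ∀ n, σ n = 1 ∨ σ n = -1
  eq : ∀ n, s n = σ n * (b ^ (mm n) * b ^ (Int.fract (x n)))
  gap : ∀ R : ℕ, ∃ H : ℕ, ∀ m n, m + H ≤ n → mm m + R ≤ mm n

lemma dz_sign (σ y : ℝ) (h : σ = 1 ∨ σ = -1) : dz (σ * y) = dz y := by
  rcases h with h | h
  · rw [h, one_mul]
  · rw [h, neg_one_mul, dz_neg]

open Classical in
theorem avg_smallG (b : ℝ) (hb : 1 < b) (s σ x : ℕ → ℝ) (mm : ℕ → ℕ) (hS : Pos b s σ x mm)
    (hUD : UD x) (L : Finset ℝ) (hL : ∀ l ∈ L, l ≠ 0) (c : ℝ) (hc : 0 < c)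
    (hc2 : c ≤ 1 / 2) (η : ℝ) (hη : η ≠ 0) (ε : ℝ) (hε : 0 < ε) :
    ∃ K0 : ℕ, ∀ {Ω : Type} [MeasurableSpace Ω] (P : Measure Ω) [IsProbabilityMeasure P]
      (D : ℕ → Ω → ℝ), (∀ j, Measurable (D j)) → iIndepFun D P → (∀ j, TwoAt P (D j) L c) →
      ∀ W : ℕ, ∀ᶠ N : ℕ in atTop, ∑ n ∈ range N,
        ‖∫ ω, ee (η * s n * SS D b (Ico (mm n - K0) (mm n + W)) ω) ∂P‖ ≤ ε * N := by
  have hb0 : 0 < b := by linarith
  have hlog : 0 < Real.log b := Real.log_pos hb
  obtain ⟨C, hCd⟩ : ∃ C : ℝ, C = 8 * (b + 2) / Real.log b + 1 := ⟨_, rfl⟩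
  have hC : 0 < C := by rw [hCd]; positivity
  have hLc : (0 : ℝ) < (L.card : ℝ) + 1 := by positivity
  obtain ⟨δ, hδ0, hδ1, hδ2⟩ : ∃ δ : ℝ, 0 < δ ∧ δ ≤ 1 / 2 ∧ 2 * (L.card : ℝ) * (C * δ) ≤ ε / 4 := by
    refine ⟨min (1 / 2) (ε / (8 * (L.card + 1) * C)), by positivity, min_le_left _ _, ?_⟩
    have h1 : min (1 / 2) (ε / (8 * (L.card + 1) * C)) ≤ ε / (8 * (L.card + 1) * C) :=
      min_le_right _ _
    calc 2 * (L.card : ℝ) * (C * min (1 / 2) (ε / (8 * (L.card + 1) * C)))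
        ≤ 2 * ((L.card : ℝ) + 1) * (C * (ε / (8 * (L.card + 1) * C))) := by
          apply mul_le_mul (by linarith) (mul_le_mul_of_nonneg_left h1 hC.le) (by positivity)
            (by positivity)
      _ = ε / 4 := by field_simp; ring
  obtain ⟨ρ, hρd⟩ : ∃ ρ : ℝ, ρ = 1 - 4 * c * δ ^ 2 := ⟨_, rfl⟩
  have hρ0 : 0 ≤ ρ := by
    rw [hρd]
    have : δ ^ 2 ≤ 1 / 4 := by nlinarith
    nlinarith
  have hρ1 : ρ < 1 := by
    rw [hρd]
    have : 0 < 4 * c * δ ^ 2 := by positivity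
    linarith
  obtain ⟨K', hK'⟩ := exists_pow_lt_of_lt_one (show (0 : ℝ) < ε / 4 by positivity) hρ1
  obtain ⟨K, hKd⟩ : ∃ K : ℕ, K = 2 * (K' + 1) := ⟨_, rfl⟩
  have hK1 : 1 ≤ K := by omega
  have hK0' : (0 : ℝ) < K := by exact_mod_cast hK1
  have hKρ : ρ ^ (K / 2) ≤ ε / 4 := by
    have h1 : K / 2 = K' + 1 := by omega
    rw [h1]
    have h2 : ρ ^ (K' + 1) ≤ ρ ^ K' := pow_le_pow_of_le_one hρ0 hρ1.le (by omega)
    linarith
  -- the shift
  obtain ⟨r, hr⟩ : ∃ r : ℕ, ∀ l ∈ L, 2 ≤ |l * η| * b ^ r := by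
    have h1 : ∀ l ∈ L, ∀ᶠ r : ℕ in atTop, 2 ≤ |l * η| * b ^ r := by
      intro l hl
      have h2 : 0 < |l * η| := abs_pos.2 (mul_ne_zero (hL l hl) hη)
      exact ((tendsto_pow_atTop_atTop_of_one_lt hb).const_mul_atTop h2).eventually_ge_atTop 2
    exact ((Finset.eventually_all L).2 h1).exists
  refine ⟨K + r, fun {Ω} _ P _ D hD hI hT W => ?_⟩
  obtain ⟨K0, hK0d⟩ : ∃ K0 : ℕ, K0 = K + r := ⟨_, rfl⟩
  rw [← hK0d]
  -- the events
  obtain ⟨V, hVd⟩ : ∃ V : ℕ → ℝ → ℝ, V = fun i l => l * η * b ^ (K0 - 1 - i) := ⟨_, rfl⟩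
  have hV : ∀ i ∈ range K, ∀ l ∈ L, 2 ≤ |V i l| := by
    intro i hi l hl
    rw [mem_range] at hi
    rw [hVd]
    show 2 ≤ |l * η * b ^ (K0 - 1 - i)|
    rw [abs_mul, abs_of_pos (by positivity : (0 : ℝ) < b ^ (K0 - 1 - i))]
    refine (hr l hl).trans (mul_le_mul_of_nonneg_left ?_ (abs_nonneg _))
    exact pow_le_pow_right₀ hb.le (by omega)
  obtain ⟨θ, hθd⟩ : ∃ θ : ℕ → ℝ, θ = fun n : ℕ => Int.fract (x n) := ⟨_, rfl⟩
  have hev : ∀ᶠ N : ℕ in atTop, ∀ i ∈ range K, ∀ l ∈ L,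
      ((((range N).filter fun n : ℕ => dz (V i l * b ^ (θ n)) < δ).card : ℕ) : ℝ) ≤
        C * δ * N := by
    rw [Finset.eventually_all (range K)]
    intro i hi
    rw [Finset.eventually_all L]
    intro l hl
    have := nearG x hUD b δ (V i l) hb hδ0 hδ1 (hV i hi l hl)
    rw [hθd, hCd]
    exact this
  -- few small n
  obtain ⟨n0, hn0⟩ : ∃ n0 : ℕ, ∀ n, n0 ≤ n → K0 ≤ mm n := by
    obtain ⟨n0, hn0⟩ := hS.gap K0
    refine ⟨n0, fun n hn => ?_⟩
    have := hn0 0 n (by omega)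
    omega
  have hev2 : ∀ᶠ N : ℕ in atTop, (n0 : ℝ) ≤ ε / 4 * N := by
    have h1 : Tendsto (fun N : ℕ => ε / 4 * (N : ℝ)) atTop atTop :=
      tendsto_natCast_atTop_atTop.const_mul_atTop (by positivity)
    exact h1.eventually_ge_atTop _
  filter_upwards [hev, hev2] with N hN1 hN2
  -- bound of one term
  have hterm : ∀ n, ‖∫ ω, ee (η * s n * SS D b (Ico (mm n - K0) (mm n + W)) ω) ∂P‖ ≤
      (if n < n0 then 1 else 0) + (ρ ^ (K / 2) + 2 / K * (((range K).filter
        fun i => ∃ l ∈ L, dz (V i l * b ^ (θ n)) < δ).card : ℝ)) := by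
    intro n
    have hnn : 0 ≤ ρ ^ (K / 2) + 2 / (K : ℝ) * (((range K).filter
        fun i => ∃ l ∈ L, dz (V i l * b ^ (θ n)) < δ).card : ℝ) := by positivity
    by_cases hn : n < n0
    · rw [if_pos hn]
      have := norm_int_le P fun ω => η * s n * SS D b (Ico (mm n - K0) (mm n + W)) ω
      linarith
    · rw [if_neg hn, zero_add]
      have hm := hn0 n (by omega)
      refine (block_le P D hD hI b (η * s n) (mm n - K0) (mm n + W) K (by omega)).trans ?_
      refine prod_bound K hK1 (fun i => ‖∫ ω, ee (η * s n / b ^ (mm n - K0 + i + 1) *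
        D (mm n - K0 + i) ω) ∂P‖) ρ hρ0 hρ1.le _ (fun i => norm_nonneg _)
        (fun i => norm_int_le P _) fun i hi hbad => ?_
      rw [mem_range] at hi
      push Not at hbad
      rw [hρd]
      apply phi_bound P (D (mm n - K0 + i)) (hD _) L hL c hc (hT _) δ hδ0.le
      intro l hl
      have h1 := hbad l hl
      have e : η * s n / b ^ (mm n - K0 + i + 1) * l = σ n * (V i l * b ^ (θ n)) := by
        rw [hVd, hθd, hS.eq n]
        have h2 : mm n = (mm n - K0 + i + 1) + (K0 - 1 - i) := by omega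
        have h3 : b ^ (mm n) = b ^ (mm n - K0 + i + 1) * b ^ (K0 - 1 - i) := by
          rw [← pow_add, ← h2]
        rw [h3]
        have h4 : b ^ (mm n - K0 + i + 1) ≠ 0 := by positivity
        field_simp
      rw [e, dz_sign _ _ (hS.sign n)]
      exact h1
  -- summation
  have hsum : ∑ n ∈ range N, (((range K).filter
      fun i => ∃ l ∈ L, dz (V i l * b ^ (θ n)) < δ).card : ℝ) ≤ K * (L.card * (C * δ * N)) := by
    have h1 : ∀ n, (((range K).filter fun i => ∃ l ∈ L, dz (V i l * b ^ (θ n)) < δ).card : ℝ) ≤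
        ∑ i ∈ range K, ∑ l ∈ L, (if dz (V i l * b ^ (θ n)) < δ then (1 : ℝ) else 0) := by
      intro n
      rw [Finset.card_filter]
      push_cast
      refine Finset.sum_le_sum fun i _ => ?_
      by_cases hex : ∃ l ∈ L, dz (V i l * b ^ (θ n)) < δ
      · rw [if_pos hex]
        obtain ⟨l, hl, hlt⟩ := hex
        have h2 := Finset.single_le_sum (f := fun l => if dz (V i l * b ^ (θ n)) < δ then
          (1 : ℝ) else 0) (fun l _ => by positivity) hl
        simp only [if_pos hlt] at h2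
        exact h2
      · rw [if_neg hex]
        exact Finset.sum_nonneg fun l _ => by positivity
    refine (Finset.sum_le_sum fun n _ => h1 n).trans ?_
    rw [Finset.sum_comm]
    have h3 : ∀ i ∈ range K, ∑ n ∈ range N, ∑ l ∈ L,
        (if dz (V i l * b ^ (θ n)) < δ then (1 : ℝ) else 0) ≤ L.card * (C * δ * N) := by
      intro i hi
      rw [Finset.sum_comm]
      calc ∑ l ∈ L, ∑ n ∈ range N, (if dz (V i l * b ^ (θ n)) < δ then (1 : ℝ) else 0)
          ≤ ∑ l ∈ L, C * δ * N := by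
            refine Finset.sum_le_sum fun l hl => ?_
            have h4 := hN1 i hi l hl
            rw [Finset.card_filter] at h4
            push_cast at h4
            exact h4
        _ = L.card * (C * δ * N) := by rw [sum_const, nsmul_eq_mul]
    calc _ ≤ ∑ i ∈ range K, (L.card : ℝ) * (C * δ * N) := Finset.sum_le_sum h3
      _ = _ := by rw [sum_const, nsmul_eq_mul, card_range]
  have hsmall : ∑ n ∈ range N, (if n < n0 then (1 : ℝ) else 0) ≤ n0 := by
    rw [← Finset.sum_filter]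
    rw [sum_const, nsmul_eq_mul, mul_one]
    have h1 : ((range N).filter fun n => n < n0) ⊆ range n0 := by
      intro n hn
      rw [mem_filter] at hn
      exact mem_range.2 hn.2
    have h2 := Finset.card_le_card h1
    rw [card_range] at h2
    exact_mod_cast h2
  have hNn : (0 : ℝ) ≤ N := Nat.cast_nonneg N
  calc _ ≤ ∑ n ∈ range N, ((if n < n0 then (1 : ℝ) else 0) + (ρ ^ (K / 2) + 2 / K *
        (((range K).filter fun i => ∃ l ∈ L, dz (V i l * b ^ (θ n)) < δ).card : ℝ))) :=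
        Finset.sum_le_sum fun n _ => hterm n
    _ = ∑ n ∈ range N, (if n < n0 then (1 : ℝ) else 0) + (N * ρ ^ (K / 2) + 2 / K *
        ∑ n ∈ range N, (((range K).filter
          fun i => ∃ l ∈ L, dz (V i l * b ^ (θ n)) < δ).card : ℝ)) := by
        rw [Finset.sum_add_distrib, Finset.sum_add_distrib, sum_const, card_range, nsmul_eq_mul,
          Finset.mul_sum]
    _ ≤ ε / 4 * N + (N * (ε / 4) + 2 / K * (K * (L.card * (C * δ * N)))) := by
        have h1 := mul_le_mul_of_nonneg_left hKρ hNn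
        have h2 := mul_le_mul_of_nonneg_left hsum (show (0 : ℝ) ≤ 2 / K by positivity)
        linarith
    _ = ε / 4 * N + (N * (ε / 4) + (2 * L.card * (C * δ)) * N) := by
        field_simp
    _ ≤ ε / 4 * N + (N * (ε / 4) + ε / 4 * N) := by
        have h1 := mul_le_mul_of_nonneg_right hδ2 hNn
        linarith
    _ ≤ ε * N := by nlinarith

end Pool.Agent.R430.RG
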