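import Mathlib
import Pool.Agent.R430.RB.Main
import Pool.Agent.R430.RB.Slln
import Pool.Agent.R430.RG.Block

/-!
# Random digits and lacunary sequences: the Weyl averages tend to zero
-/

set_option autoImplicit false

open Finset Filter Topology MeasureTheory ProbabilityTheory
open scoped Real

namespace Pool.Agent.R430.RG

open Pool.Agent.R739.RD Pool.Agent.H534R3.UDist Pool.Agent.R430.RB

/-- **The Weyl averages tend to zero almost surely.** -/
theorem ae_weylG {Ω : Type} [MeasurableSpace Ω] (P : Measure Ω)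
    [IsProbabilityMeasure P] (b : ℝ) (hb : 1 < b) (s σ x : ℕ → ℝ) (mm : ℕ → ℕ)
    (hs : Pos b s σ x mm) (hUD : UD x) (L : Finset ℝ) (hL : ∀ l ∈ L, l ≠ 0) (c : ℝ) (hc : 0 < c)
    (hc2 : c ≤ 1 / 2) (M : ℝ) (D : ℕ → Ω → ℝ) (hD : ∀ j, Measurable (D j)) (hI : iIndepFun D P)
    (hM : ∀ j ω, |D j ω| ≤ M) (hT : ∀ j, TwoAt P (D j) L c) (η : ℝ) (hη : η ≠ 0)
    (z : ℕ → ℂ) (hz : ∀ n, ‖z n‖ ≤ 1) :
    ∀ᵐ ω ∂P, Tendsto (fun N : ℕ => ‖∑ n ∈ range N, z n *
      ee (η * s n * ∑' j, D j ω / b ^ (j + 1))‖ / N) atTop (𝓝 0) := by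
  have hb0 : 0 < b := by linarith
  have hbm : 0 < b - 1 := by linarith
  have hM0 : 0 ≤ M := by
    obtain ⟨ω⟩ : Nonempty Ω := by
      by_contra h
      rw [not_nonempty_iff] at h
      have h1 := measure_univ (μ := P)
      rw [Set.univ_eq_empty_iff.2 h, measure_empty] at h1
      exact zero_ne_one h1
    exact (abs_nonneg _).trans (hM 0 ω)
  have key : ∀ q : ℕ, ∀ᵐ ω ∂P, ∀ᶠ N : ℕ in atTop, ‖∑ n ∈ range N, z n *
      ee (η * s n * ∑' j, D j ω / b ^ (j + 1))‖ ≤ 3 * (1 / ((q : ℝ) + 1)) * N := by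
    intro q
    obtain ⟨ε, hεd⟩ : ∃ ε : ℝ, ε = 1 / ((q : ℝ) + 1) := ⟨_, rfl⟩
    have hε : 0 < ε := by rw [hεd]; positivity
    rw [← hεd]
    obtain ⟨K0, hK0⟩ := avg_smallG b hb s σ x mm hs hUD L hL c hc hc2 η hη ε hε
    -- the cut
    obtain ⟨W, hW⟩ : ∃ W : ℕ, 2 * π * (|η| * b * M / (b ^ W * (b - 1))) ≤ ε := by
      have h1 : Tendsto (fun W : ℕ => ε * (b - 1) * b ^ W) atTop atTop :=
        (tendsto_pow_atTop_atTop_of_one_lt hb).const_mul_atTop (by positivity)
      obtain ⟨W, hW⟩ := (h1.eventually_ge_atTop (2 * π * (|η| * b * M))).exists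
      refine ⟨W, ?_⟩
      rw [← mul_div_assoc, div_le_iff₀ (by positivity)]
      linarith
    have hK := hK0 P D hD hI hT W
    obtain ⟨A, hA⟩ : ∃ A : ℕ → Finset ℕ, A = fun n => range (mm n - K0) := ⟨_, rfl⟩
    obtain ⟨B, hB⟩ : ∃ B : ℕ → Finset ℕ, B = fun n => Ico (mm n - K0) (mm n + W) := ⟨_, rfl⟩
    obtain ⟨g, hg⟩ : ∃ g : ℕ → ℂ, g = fun n => ∫ x, ee (η * s n * SS D b (B n) x) ∂P := ⟨_, rfl⟩
    have hg1 : ∀ n, ‖g n‖ ≤ 1 := fun n => by
      rw [hg]
      exact norm_int_le P _
    obtain ⟨Y, hY⟩ : ∃ Y : ℕ → Ω → ℂ, Y = fun n => YY D b (z n) (η * s n) (A n) (B n) (g n) :=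
      ⟨_, rfl⟩
    obtain ⟨H, hH⟩ := hs.gap (W + K0)
    have hYs := slln P Y H (fun n => by
        rw [hY]
        exact measurable_YY D b _ _ _ _ _ (fun j _ => hD j) fun j _ => hD j)
      (fun n ω => by
        rw [hY]
        exact norm_YY_le D b _ (hz n) _ _ _ _ (hg1 n) ω)
      (fun m n hmn => by
        have h1 := hH m n hmn
        rw [hY]
        simp only [hg]
        refine cov_zero P D hD hI b (A n) (A m) (B m) (A n) (B n) ?_ ?_ Subset.rfl ?_ _ _ _ _ _
        · rw [hA]
          exact range_subset_range.2 (by omega)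
        · rw [hA, hB]
          intro j hj
          rw [mem_Ico] at hj
          rw [mem_range]
          omega
        · rw [hA, hB]
          rw [Finset.disjoint_left]
          intro j hj1 hj2
          rw [mem_range] at hj1
          rw [mem_Ico] at hj2
          omega)
    filter_upwards [hYs] with ω hω
    have h1 : ∀ᶠ N : ℕ in atTop, ‖∑ n ∈ range N, Y n ω‖ / N < ε := hω.eventually (gt_mem_nhds hε)
    filter_upwards [h1, hK, eventually_gt_atTop 0] with N hN1 hN2 hN3
    have hN0 : (0 : ℝ) < N := by exact_mod_cast hN3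
    rw [div_lt_iff₀ hN0] at hN1
    obtain ⟨ξ, hξ⟩ : ∃ ξ : ℝ, ξ = ∑' j, D j ω / b ^ (j + 1) := ⟨_, rfl⟩
    rw [← hξ]
    have hdec : ∀ n, z n * ee (η * s n * ξ) = Y n ω +
        (z n * (ee (η * s n * SS D b (A n) ω) * g n) +
        z n * (ee (η * s n * ξ) - ee (η * s n * SS D b (range (mm n + W)) ω))) := by
      intro n
      have h2 : SS D b (range (mm n + W)) ω = SS D b (A n) ω + SS D b (B n) ω := by
        rw [hA, hB]
        unfold SS
        exact (Finset.sum_range_add_sum_Ico _ (by omega)).symm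
      rw [h2, mul_add (η * s n), ee_add, hY]
      show _ = z n * (ee (η * s n * SS D b (A n) ω) * (ee (η * s n * SS D b (B n) ω) - g n)) + _
      ring
    have htail : ∀ n, ‖z n * (ee (η * s n * ξ) -
        ee (η * s n * SS D b (range (mm n + W)) ω))‖ ≤ ε := by
      intro n
      rw [norm_mul]
      have h2 := ee_sub_le (η * s n * ξ) (η * s n * SS D b (range (mm n + W)) ω)
      have h3 := tail_bound b hb M (fun j => D j ω) (fun j => hM j ω) (mm n + W)
      rw [← hξ] at h3
      have h4 : |η * s n * ξ - η * s n * SS D b (range (mm n + W)) ω| ≤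
          |η| * b * M / (b ^ W * (b - 1)) := by
        rw [← mul_sub, abs_mul, abs_mul]
        have h5 : |s n| ≤ b ^ (mm n) * b := by
          rw [hs.eq n, abs_mul]
          have h6 : |σ n| = 1 := by
            rcases hs.sign n with h | h <;> rw [h] <;> simp
          rw [h6, one_mul, abs_of_pos (by positivity)]
          apply mul_le_mul_of_nonneg_left _ (by positivity)
          calc b ^ (Int.fract (x n)) ≤ b ^ (1 : ℝ) :=
                Real.rpow_le_rpow_of_exponent_le hb.le (Int.fract_lt_one _).le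
            _ = b := Real.rpow_one b
        calc |η| * |s n| * |ξ - SS D b (range (mm n + W)) ω|
            ≤ |η| * (b ^ (mm n) * b) * (M / (b ^ (mm n + W) * (b - 1))) := by
              apply mul_le_mul (mul_le_mul_of_nonneg_left h5 (abs_nonneg _)) h3 (abs_nonneg _)
                (by positivity)
          _ = |η| * b * M / (b ^ W * (b - 1)) := by
              rw [pow_add]
              field_simp
      calc ‖z n‖ * ‖ee (η * s n * ξ) - ee (η * s n * SS D b (range (mm n + W)) ω)‖
          ≤ 1 * (2 * π * (|η| * b * M / (b ^ W * (b - 1)))) := by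
            apply mul_le_mul (hz n) _ (norm_nonneg _) zero_le_one
            exact h2.trans (mul_le_mul_of_nonneg_left h4 (by positivity))
        _ ≤ ε := by rw [one_mul]; exact hW
    calc ‖∑ n ∈ range N, z n * ee (η * s n * ξ)‖
        = ‖∑ n ∈ range N, Y n ω + (∑ n ∈ range N, z n * (ee (η * s n * SS D b (A n) ω) * g n) +
          ∑ n ∈ range N, z n * (ee (η * s n * ξ) -
            ee (η * s n * SS D b (range (mm n + W)) ω)))‖ := by
          rw [← Finset.sum_add_distrib, ← Finset.sum_add_distrib]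
          congr 1
          exact Finset.sum_congr rfl fun n _ => hdec n
      _ ≤ ‖∑ n ∈ range N, Y n ω‖ + (‖∑ n ∈ range N, z n * (ee (η * s n * SS D b (A n) ω) * g n)‖ +
          ‖∑ n ∈ range N, z n * (ee (η * s n * ξ) -
            ee (η * s n * SS D b (range (mm n + W)) ω))‖) :=
          (norm_add_le _ _).trans (add_le_add le_rfl (norm_add_le _ _))
      _ ≤ ε * N + (ε * N + ε * N) := by
          refine add_le_add hN1.le (add_le_add ?_ ?_)
          · refine (norm_sum_le _ _).trans (le_trans ?_ hN2)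
            refine Finset.sum_le_sum fun n _ => ?_
            rw [norm_mul, norm_mul, norm_ee, one_mul, hg, hB]
            calc ‖z n‖ * ‖∫ x, ee (η * s n * SS D b (Ico (mm n - K0) (mm n + W)) x) ∂P‖
                ≤ 1 * ‖∫ x, ee (η * s n * SS D b (Ico (mm n - K0) (mm n + W)) x) ∂P‖ :=
                  mul_le_mul_of_nonneg_right (hz n) (norm_nonneg _)
              _ = _ := one_mul _
          · refine (norm_sum_le _ _).trans ?_
            calc _ ≤ ∑ n ∈ range N, ε := Finset.sum_le_sum fun n _ => htail n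
              _ = ε * N := by rw [sum_const, nsmul_eq_mul, card_range]; ring
      _ = 3 * ε * N := by ring
  filter_upwards [ae_all_iff.2 key] with ω hω
  rw [Metric.tendsto_atTop]
  intro ε hε
  obtain ⟨q, hq⟩ := exists_nat_one_div_lt (show 0 < ε / 3 by positivity)
  obtain ⟨N0, hN0⟩ := eventually_atTop.1 (hω q)
  refine ⟨max N0 1, fun N hN => ?_⟩
  have hN1 : N0 ≤ N := (le_max_left _ _).trans hN
  have hN2 : 1 ≤ N := (le_max_right _ _).trans hN
  have hNp : (0 : ℝ) < N := by exact_mod_cast hN2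
  rw [Real.dist_eq, sub_zero, abs_of_nonneg (by positivity), div_lt_iff₀ hNp]
  refine lt_of_le_of_lt (hN0 N hN1) ?_
  nlinarith

end Pool.Agent.R430.RG
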