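import Mathlib
import Pool.Agent.R739.RD.Fin
import Pool.Agent.R430.RB.Stm

/-!
# Random digits in any real base and lacunary sequences: statements of the pieces
-/

set_option autoImplicit false

open Finset Filter Topology MeasureTheory ProbabilityTheory
open scoped Real

namespace Pool.Agent.R430.RG

open Pool.Agent.R739.RD Pool.Agent.H534R3.UDist

/-- lacunary, with logarithms to base `b` uniformly distributed modulo one -/
def LacUD (b : ℝ) (s : ℕ → ℝ) : Prop :=
  (∃ q : ℝ, 1 < q ∧ ∀ᶠ n : ℕ in atTop, 0 < |s n| ∧ q * |s n| ≤ |s (n + 1)|) ∧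
    UD fun n => Real.log |s n| / Real.log b

/-- RG-PERT: sequences asymptotic to `c t ^ n` -/
def S_PERT : Prop := ∀ (b c t : ℝ) (s : ℕ → ℝ), 1 < b → c ≠ 0 → 1 < t →
  Irrational (Real.log t / Real.log b) →
  Tendsto (fun n : ℕ => s n / (c * t ^ n)) atTop (𝓝 1) → LacUD b s

/-- RG-SUM: a sum of exponentials is asymptotic to its dominating term -/
def S_SUM : Prop := ∀ (r : ℕ) (t c : Fin r → ℝ), Function.Injective t → (∀ i, 1 < t i) →
  (∃ i, c i ≠ 0) → ∃ i, c i ≠ 0 ∧
    Tendsto (fun n : ℕ => (∑ j, c j * t j ^ n) / (c i * t i ^ n)) atTop (𝓝 1)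

/-- RG-MOD: changing finitely many terms preserves uniform distribution -/
def S_MOD : Prop := ∀ x y : ℕ → ℝ, (∀ᶠ n in atTop, x n = y n) → UD x → UD y

/-- RG-EQ: the definition with `1 ≤ n ≤ N` implies the one with `0 ≤ n < N` -/
def S_EQ : Prop := ∀ x : ℕ → ℝ, Equi x → UD x

end Pool.Agent.R430.RG
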