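import Mathlib
import Pool.Agent.R430.RG.Main
import Pool.Agent.R430.RB.Concl
import Pool.Agent.R430.RG.Stm

/-!
# Random digits and lacunary sequences: from lacunary sequences to positions
-/

set_option autoImplicit false

open Finset Filter Topology MeasureTheory ProbabilityTheory
open scoped Real

namespace Pool.Agent.R430.RG

open Pool.Agent.R739.RD Pool.Agent.H534R3.UDist Pool.Agent.R430.RB

lemma avg_mod (a a' : ℕ → ℂ) (ha : ∀ n, ‖a n‖ ≤ 1) (ha' : ∀ n, ‖a' n‖ ≤ 1) (n2 : ℕ)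
    (h : ∀ n, n2 ≤ n → a n = a' n)
    (h1 : Tendsto (fun N : ℕ => ‖∑ n ∈ range N, a' n‖ / N) atTop (𝓝 0)) :
    Tendsto (fun N : ℕ => ‖∑ n ∈ Icc 1 N, a n‖ / N) atTop (𝓝 0) := by
  have hb : ∀ N : ℕ, ‖∑ n ∈ Icc 1 N, a n‖ ≤ ‖∑ n ∈ range N, a' n‖ + (2 * n2 + 2) := by
    intro N
    have e1 : ∑ n ∈ Icc 1 N, a n = ∑ n ∈ range (N + 1), a n - a 0 := by
      rw [Finset.sum_range_succ', ← sum_shift a N]
      ring
    have e2 : ∑ n ∈ range (N + 1), a n =
        ∑ n ∈ range N, a' n + (a' N + ∑ n ∈ range (N + 1), (a n - a' n)) := by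
      rw [Finset.sum_sub_distrib, Finset.sum_range_succ (fun n => a' n)]
      ring
    have h2 : ∑ n ∈ range (N + 1), ‖a n - a' n‖ ≤ 2 * n2 := by
      have h3 : ∀ n ∈ range (N + 1), ‖a n - a' n‖ ≤ if n < n2 then (2 : ℝ) else 0 := by
        intro n _
        by_cases hn : n < n2
        · rw [if_pos hn]
          exact (norm_sub_le _ _).trans (by linarith [ha n, ha' n])
        · rw [if_neg hn, h n (by omega), sub_self, norm_zero]
      refine (Finset.sum_le_sum h3).trans ?_
      rw [← Finset.sum_filter, sum_const, nsmul_eq_mul]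
      have h4 : ((range (N + 1)).filter fun n => n < n2) ⊆ range n2 := by
        intro n hn
        rw [mem_filter] at hn
        exact mem_range.2 hn.2
      have h5 := Finset.card_le_card h4
      rw [card_range] at h5
      have h6 : ((((range (N + 1)).filter fun n => n < n2).card : ℕ) : ℝ) ≤ n2 := by
        exact_mod_cast h5
      linarith
    rw [e1, e2]
    calc _ ≤ ‖∑ n ∈ range N, a' n + (a' N + ∑ n ∈ range (N + 1), (a n - a' n))‖ + ‖a 0‖ :=
          norm_sub_le _ _
      _ ≤ (‖∑ n ∈ range N, a' n‖ + (‖a' N‖ + ‖∑ n ∈ range (N + 1), (a n - a' n)‖)) + ‖a 0‖ := by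
          refine add_le_add ((norm_add_le _ _).trans (add_le_add le_rfl (norm_add_le _ _))) le_rfl
      _ ≤ _ := by
          have h7 := norm_sum_le (range (N + 1)) fun n => a n - a' n
          have h8 := ha' N
          have h9 := ha 0
          linarith
  have h2 : Tendsto (fun N : ℕ => ‖∑ n ∈ range N, a' n‖ / N + (2 * n2 + 2 : ℝ) / N) atTop
      (𝓝 (0 + 0)) := h1.add (tendsto_const_div_atTop_nhds_zero_nat _)
  rw [add_zero] at h2
  refine squeeze_zero (fun N => by positivity) (fun N => ?_) h2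
  rw [← add_div]
  exact div_le_div_of_nonneg_right (hb N) (Nat.cast_nonneg N)

/-- lacunary sequences have positions and mantissas -/
theorem exists_pos (hM : S_MOD) (b : ℝ) (hb : 1 < b) (s : ℕ → ℝ) (hs : LacUD b s) :
    ∃ (s' σ x : ℕ → ℝ) (mm : ℕ → ℕ) (n2 : ℕ), Pos b s' σ x mm ∧ UD x ∧
      ∀ n, n2 ≤ n → s n = s' n := by
  classical
  obtain ⟨⟨q, hq1, hq⟩, hUD⟩ := hs
  obtain ⟨n1, hn1⟩ := eventually_atTop.1 hq
  have hb0 : 0 < b := by linarith
  have hlb : 0 < Real.log b := Real.log_pos hb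
  have hlq : 0 < Real.log q := Real.log_pos hq1
  have hgrow : ∀ m, n1 ≤ m → ∀ k : ℕ, q ^ k * |s m| ≤ |s (m + k)| := by
    intro m hm k
    induction k with
    | zero => simp
    | succ k ih =>
      have h1 := (hn1 (m + k) (by omega)).2
      calc q ^ (k + 1) * |s m| = q * (q ^ k * |s m|) := by rw [pow_succ]; ring
        _ ≤ q * |s (m + k)| := mul_le_mul_of_nonneg_left ih (by linarith)
        _ ≤ |s (m + (k + 1))| := h1
  obtain ⟨k1, hk1⟩ : ∃ k1 : ℕ, ∀ k, k1 ≤ k → 1 ≤ |s (n1 + k)| := by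
    have h1 : 0 < |s n1| := (hn1 n1 le_rfl).1
    have h2 : Tendsto (fun k : ℕ => q ^ k * |s n1|) atTop atTop :=
      (tendsto_pow_atTop_atTop_of_one_lt hq1).atTop_mul_const h1
    obtain ⟨k1, hk1⟩ := eventually_atTop.1 (h2.eventually_ge_atTop 1)
    exact ⟨k1, fun k hk => (hk1 k hk).trans (hgrow n1 le_rfl k)⟩
  obtain ⟨n2, hn2d⟩ : ∃ n2, n2 = n1 + k1 := ⟨_, rfl⟩
  have hone : ∀ n, n2 ≤ n → 1 ≤ |s n| := by
    intro n hn
    have := hk1 (n - n1) (by omega)
    rwa [show n1 + (n - n1) = n by omega] at this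
  obtain ⟨x, hxd⟩ : ∃ x : ℕ → ℝ, x = fun n => if n < n2 then 0 else
      Real.log |s n| / Real.log b := ⟨_, rfl⟩
  have hx0 : ∀ n, 0 ≤ x n := by
    intro n
    rw [hxd]
    show 0 ≤ if n < n2 then 0 else Real.log |s n| / Real.log b
    split_ifs with h
    · exact le_rfl
    · exact div_nonneg (Real.log_nonneg (hone n (by omega))) hlb.le
  have hxlt : ∀ n, n < n2 → x n = 0 := by
    intro n hn
    rw [hxd]
    show (if n < n2 then 0 else Real.log |s n| / Real.log b) = 0
    rw [if_pos hn]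
  have hxge : ∀ n, n2 ≤ n → x n = Real.log |s n| / Real.log b := by
    intro n hn
    rw [hxd]
    show (if n < n2 then 0 else Real.log |s n| / Real.log b) = _
    rw [if_neg (by omega)]
  have hstep : ∀ m, n2 ≤ m → ∀ k : ℕ, x m + k * (Real.log q / Real.log b) ≤ x (m + k) := by
    intro m hm k
    rw [hxge m hm, hxge (m + k) (by omega)]
    have h1 := hgrow m (by omega) k
    have h2 : 0 < |s m| := by linarith [hone m hm]
    have h3 : Real.log (q ^ k * |s m|) ≤ Real.log |s (m + k)| :=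
      Real.log_le_log (by positivity) h1
    rw [Real.log_mul (by positivity) h2.ne', Real.log_pow] at h3
    rw [← mul_div_assoc, ← add_div]
    apply div_le_div_of_nonneg_right _ hlb.le
    linarith
  refine ⟨fun n => if n < n2 then 1 else s n, fun n => if n < n2 then 1 else
    if 0 ≤ s n then 1 else -1, x, fun n => ⌊x n⌋₊, n2, ⟨?_, ?_, ?_⟩, ?_, ?_⟩
  · intro n
    show (if n < n2 then (1 : ℝ) else if 0 ≤ s n then 1 else -1) = 1 ∨ _ = _
    split_ifs <;> simp
  · intro n
    have h0 : x n = (⌊x n⌋₊ : ℝ) + Int.fract (x n) := by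
      rw [natCast_floor_eq_intCast_floor (hx0 n)]
      exact (Int.floor_add_fract _).symm
    have h1 : b ^ (⌊x n⌋₊) * b ^ (Int.fract (x n)) = b ^ (x n) := by
      conv_rhs => rw [h0]
      rw [Real.rpow_add hb0, Real.rpow_natCast]
    show (if n < n2 then (1 : ℝ) else s n) = (if n < n2 then (1 : ℝ) else
      if 0 ≤ s n then 1 else -1) * (b ^ (⌊x n⌋₊) * b ^ (Int.fract (x n)))
    rw [h1]
    by_cases hn : n < n2
    · rw [if_pos hn, if_pos hn, hxlt n hn, Real.rpow_zero, one_mul]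
    · rw [if_neg hn, if_neg hn, hxge n (by omega)]
      have h2 : 0 < |s n| := by linarith [hone n (by omega)]
      have h3 : b ^ (Real.log |s n| / Real.log b) = |s n| := by
        rw [Real.rpow_def_of_pos hb0, mul_div_cancel₀ _ hlb.ne', Real.exp_log h2]
      rw [h3]
      split_ifs with h4
      · rw [abs_of_nonneg h4, one_mul]
      · rw [abs_of_neg (by linarith)]
        ring
  · intro R
    obtain ⟨H1, hH1⟩ := exists_nat_ge (((R : ℝ) + 1) / (Real.log q / Real.log b))
    rw [div_le_iff₀ (by positivity)] at hH1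
    refine ⟨n2 + H1, fun m n hmn => ?_⟩
    show ⌊x m⌋₊ + R ≤ ⌊x n⌋₊
    rw [← Nat.floor_add_natCast (hx0 m)]
    apply Nat.floor_mono
    have hl : 0 < Real.log q / Real.log b := by positivity
    rcases lt_or_ge m n2 with hm | hm
    · rw [hxlt m hm, zero_add]
      have h1 := hstep n2 le_rfl (n - n2)
      rw [show n2 + (n - n2) = n by omega] at h1
      have h2 : (H1 : ℝ) ≤ ((n - n2 : ℕ) : ℝ) := by
        have : H1 ≤ n - n2 := by omega
        exact_mod_cast this
      have h3 := hx0 n2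
      nlinarith
    · have h1 := hstep m hm (n - m)
      rw [show m + (n - m) = n by omega] at h1
      have h2 : (H1 : ℝ) ≤ ((n - m : ℕ) : ℝ) := by
        have : H1 ≤ n - m := by omega
        exact_mod_cast this
      nlinarith
  · refine hM _ x ?_ hUD
    filter_upwards [eventually_ge_atTop n2] with n hn
    exact (hxge n hn).symm
  · intro n hn
    show s n = if n < n2 then (1 : ℝ) else s n
    rw [if_neg (by omega)]

/-- **The Weyl averages of lacunary sequences tend to zero almost surely.** -/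
theorem weyl_lac (hM : S_MOD) {Ω : Type} [MeasurableSpace Ω] (P : Measure Ω)
    [IsProbabilityMeasure P] (b : ℝ) (hb : 1 < b) (D : ℕ → Ω → ℝ) (hD : RB.Digits P D)
    (s : ℕ → ℝ) (hs : LacUD b s) (η : ℝ) (hη : η ≠ 0) (z : ℕ → ℂ) (hz : ∀ n, ‖z n‖ ≤ 1) :
    ∀ᵐ ω ∂P, Tendsto (fun N : ℕ => ‖∑ n ∈ Icc 1 N, z n *
      ee (η * s n * ∑' j, D j ω / b ^ (j + 1))‖ / N) atTop (𝓝 0) := by
  obtain ⟨M, hDM⟩ := hD.bdd
  obtain ⟨L, c, hc, hat⟩ := hD.atoms
  obtain ⟨s', σ, x, mm, n2, hpos, hUD, heq⟩ := exists_pos hM b hb s hs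
  have h1 := ae_weylG P b hb s' σ x mm hpos hUD
    (L.filter fun l => l ≠ 0) (fun l hl => (Finset.mem_filter.1 hl).2) (min c (1 / 2))
    (by positivity) (min_le_right _ _) M D hD.meas hD.indep hDM (fun j => by
      obtain ⟨x, l, hl, hl0, h1, h2⟩ := hat j
      exact ⟨x, l, Finset.mem_filter.2 ⟨hl, hl0⟩, (min_le_left _ _).trans h1,
        (min_le_left _ _).trans h2⟩) η hη z hz
  filter_upwards [h1] with ω hω
  refine avg_mod _ (fun n => z n * ee (η * s' n * ∑' j, D j ω / b ^ (j + 1))) (fun n => ?_)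
    (fun n => ?_) n2 (fun n hn => ?_) hω
  · rw [norm_mul, norm_ee, mul_one]
    exact hz n
  · rw [norm_mul, norm_ee, mul_one]
    exact hz n
  · rw [heq n hn]

end Pool.Agent.R430.RG
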