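import Mathlib
import Pool.Agent.R430.RG.Lac

/-!
# Random digits and lacunary sequences: conclusions
-/

set_option autoImplicit false

open Finset Filter Topology MeasureTheory ProbabilityTheory
open scoped Real

namespace Pool.Agent.R430.RG

open Pool.Agent.R739.RD Pool.Agent.H534R3.UDist Pool.Agent.R430.RB

/-- the three conclusions on the random numbers `ξ * s n` -/
def SeqOf {Ω : Type} [MeasurableSpace Ω] (P : Measure Ω) (ξ : Ω → ℝ) (s : ℕ → ℝ) : Prop :=
  (∀ η : ℝ, η ≠ 0 → ∀ z : ℕ → ℂ, (∀ n, ‖z n‖ ≤ 1) → ∀ᵐ ω ∂P, Tendsto (fun N : ℕ =>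
    (∑ n ∈ Icc 1 N, z n * Complex.exp (2 * π * Complex.I * (η * ξ ω * s n : ℝ))) / (N : ℂ))
    atTop (𝓝 0)) ∧
  (∀ η : ℝ, η ≠ 0 → ∀ θ : ℕ → ℝ, ∀ᵐ ω ∂P, Equi fun n => η * ξ ω * s n + θ n) ∧
  (∀ (m : ℕ) (η : Fin m → ℝ), LinearIndependent ℚ η → ∀ θ : ℕ → Fin m → ℝ, ∀ᵐ ω ∂P,
    EquiTorus fun n i => η i * ξ ω * s n + θ n i)

theorem seqOf_of {Ω : Type} [MeasurableSpace Ω] (P : Measure Ω)
    [IsProbabilityMeasure P] (ξ : Ω → ℝ) (s : ℕ → ℝ)
    (H : ∀ (z : ℕ → ℂ), (∀ n, ‖z n‖ ≤ 1) → ∀ a : ℝ, a ≠ 0 →
      ∀ᵐ ω ∂P, Tendsto (fun N : ℕ => ‖∑ n ∈ Icc 1 N, z n * ee (a * s n * ξ ω)‖ / N) atTop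
        (𝓝 0)) : SeqOf P ξ s := by
  refine ⟨?_, ?_, ?_⟩
  · intro η hη z hz
    filter_upwards [H z hz η hη] with ω hω
    rw [tendsto_zero_iff_norm_tendsto_zero]
    refine hω.congr fun N => ?_
    rw [norm_div, Complex.norm_natCast]
    congr 2
    refine sum_congr rfl fun n _ => ?_
    rw [show η * s n * ξ ω = η * ξ ω * s n by ring]
    rfl
  · intro η hη θ
    have h1 : ∀ h : ℕ, ∀ᵐ ω ∂P, 1 ≤ h → Tendsto (fun N : ℕ =>
        ‖∑ n ∈ Icc 1 N, ee (h * (η * ξ ω * s n + θ n))‖ / N) atTop (𝓝 0) := by
      intro h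
      by_cases hh : 1 ≤ h
      · have hh0 : (h : ℝ) ≠ 0 := by
          have : h ≠ 0 := by omega
          exact_mod_cast this
        filter_upwards [H (fun n => ee (h * θ n)) (fun n => (norm_ee _).le)
          (h * η) (mul_ne_zero hh0 hη)] with ω hω _
        refine hω.congr fun N => ?_
        congr 2
        refine sum_congr rfl fun n _ => ?_
        rw [← ee_add]
        congr 1
        ring
      · exact Eventually.of_forall fun ω h => absurd h hh
    filter_upwards [ae_all_iff.2 h1] with ω hω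
    exact equi_of_weyl _ fun k hk => hω k hk
  · intro m η hη θ
    have h1 : ∀ k : Fin m → ℤ, ∀ᵐ ω ∂P, k ≠ 0 → Tendsto (fun N : ℕ =>
        ‖∑ n ∈ Icc 1 N, ee (∑ i, k i * (η i * ξ ω * s n + θ n i))‖ / N) atTop (𝓝 0) := by
      intro k
      by_cases hk : k ≠ 0
      · have ha : (∑ i, k i * η i) ≠ 0 := by
          intro h0
          apply hk
          rw [Fintype.linearIndependent_iff] at hη
          have h2 := hη (fun i => (k i : ℚ)) (by
            rw [← h0]
            refine sum_congr rfl fun i _ => ?_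
            rw [Algebra.smul_def]
            simp)
          funext i
          have := h2 i
          simpa using this
        filter_upwards [H (fun n => ee (∑ i, k i * θ n i)) (fun n => (norm_ee _).le)
          (∑ i, k i * η i) ha] with ω hω _
        refine hω.congr fun N => ?_
        congr 2
        refine sum_congr rfl fun n _ => ?_
        rw [← ee_add]
        congr 1
        rw [sum_mul, sum_mul, ← sum_add_distrib]
        refine sum_congr rfl fun i _ => ?_
        ring
      · exact Eventually.of_forall fun ω h => absurd h hk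
    filter_upwards [ae_all_iff.2 h1] with ω hω
    exact equiTorus_of_weyl _ fun k hk => hω k hk

section

variable {Ω : Type} [MeasurableSpace Ω] (P : Measure Ω) [IsProbabilityMeasure P] (b : ℝ)
  (hb : 1 < b) (D : ℕ → Ω → ℝ) (hD : RB.Digits P D)

include hb hD in
theorem main_lac (hM : S_MOD) (s : ℕ → ℝ) (hs : LacUD b s) :
    SeqOf P (fun ω => ∑' j, D j ω / b ^ (j + 1)) s :=
  seqOf_of P _ s fun z hz a ha => weyl_lac hM P b hb D hD s hs a ha z hz

lemma lac_pow (hP : S_PERT) (b t : ℝ) (hb : 1 < b) (ht : 1 < t)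
    (hbt : Irrational (Real.log t / Real.log b)) : LacUD b fun n => t ^ n := by
  refine hP b 1 t _ hb one_ne_zero ht hbt ?_
  have h : (fun n : ℕ => t ^ n / (1 * t ^ n)) = fun _ => 1 := by
    funext n
    have : t ^ n ≠ 0 := by positivity
    rw [one_mul, div_self this]
  rw [h]
  exact tendsto_const_nhds

include hb hD in
/-- joint equidistribution for several bases `t` -/
theorem main_joint (hM : S_MOD) (hP : S_PERT) (hS : S_SUM) (r : ℕ) (t : Fin r → ℝ)
    (ht : Function.Injective t) (ht1 : ∀ i, 1 < t i)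
    (hbt : ∀ i, Irrational (Real.log (t i) / Real.log b)) (m : ℕ) (p : Fin m → Fin r)
    (η : Fin m → ℝ) (hη : ∀ i, LinearIndependent ℚ fun k : {k // p k = i} => η k)
    (θ : ℕ → Fin m → ℝ) :
    ∀ᵐ ω ∂P, EquiTorus fun n k => η k * (∑' j, D j ω / b ^ (j + 1)) * t (p k) ^ n + θ n k := by
  classical
  have h1 : ∀ k : Fin m → ℤ, ∀ᵐ ω ∂P, k ≠ 0 → Tendsto (fun N : ℕ =>
      ‖∑ n ∈ Icc 1 N, ee (∑ l, k l * (η l * (∑' j, D j ω / b ^ (j + 1)) * t (p l) ^ n +
        θ n l))‖ / N) atTop (𝓝 0) := by
    intro k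
    by_cases hk : k ≠ 0
    · obtain ⟨c, hc⟩ : ∃ c : Fin r → ℝ, c = fun i => ∑ l, if p l = i then (k l : ℝ) * η l else 0 :=
        ⟨_, rfl⟩
      have hc0 : ∃ i, c i ≠ 0 := by
        by_contra hcon
        push Not at hcon
        apply hk
        funext l
        have h2 := hcon (p l)
        have h3 := (Fintype.linearIndependent_iff.1 (hη (p l))) (fun l' => ((k l' : ℤ) : ℚ)) (by
          rw [hc] at h2
          simp only at h2
          rw [← h2, ← Finset.sum_filter]
          rw [Finset.sum_subtype (Finset.univ.filter fun l' => p l' = p l)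
            (p := fun l' => p l' = p l) (by intro x; simp)
            (f := fun l' => (k l' : ℝ) * η l')]
          refine sum_congr rfl fun l' _ => ?_
          rw [Algebra.smul_def]
          simp)
        have h4 := h3 ⟨l, rfl⟩
        simpa using h4
      obtain ⟨i0, hi0, hlim⟩ := hS r t c ht ht1 hc0
      have hlac := hP b (c i0) (t i0) (fun n => ∑ j, c j * t j ^ n) hb hi0 (ht1 i0) (hbt i0) hlim
      have h2 := weyl_lac hM P b hb D hD _ hlac 1 one_ne_zero
        (fun n => ee (∑ l, k l * θ n l)) (fun n => (norm_ee _).le)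
      filter_upwards [h2] with ω hω _
      refine hω.congr fun N => ?_
      congr 2
      refine sum_congr rfl fun n _ => ?_
      rw [← ee_add]
      congr 1
      have h5 : ∑ j, c j * t j ^ n = ∑ l, (k l : ℝ) * η l * t (p l) ^ n := by
        rw [hc]
        simp only [Finset.sum_mul]
        rw [Finset.sum_comm]
        refine sum_congr rfl fun l _ => ?_
        rw [Finset.sum_eq_single (p l)]
        · rw [if_pos rfl]
        · intro i _ hi
          rw [if_neg (Ne.symm hi), zero_mul]
        · intro h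
          exact absurd (mem_univ _) h
      rw [h5, one_mul, Finset.sum_mul, ← sum_add_distrib]
      refine sum_congr rfl fun l _ => ?_
      ring
    · exact Eventually.of_forall fun ω h => absurd h hk
  filter_upwards [ae_all_iff.2 h1] with ω hω
  exact equiTorus_of_weyl _ fun k hk => hω k hk

/-- different powers of a transcendental number are linearly independent -/
lemma lin_powG {κ : Type} [Fintype κ] (t : ℝ) (ht : Transcendental ℚ t) (e : κ → ℕ)
    (he : Function.Injective e) (η : ℝ) (hη : η ≠ 0) :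
    LinearIndependent ℚ (fun i : κ => η * t ^ (e i)) := by
  classical
  rw [Fintype.linearIndependent_iff]
  intro g hg i
  set p : Polynomial ℚ := ∑ j : κ, Polynomial.monomial (e j) (g j) with hp
  have h1 : Polynomial.aeval t p = 0 := by
    rw [hp, map_sum]
    simp only [Polynomial.aeval_monomial]
    have h2 : ∑ j : κ, g j • (η * t ^ (e j)) =
        η * ∑ j : κ, (algebraMap ℚ ℝ) (g j) * t ^ (e j) := by
      rw [mul_sum]
      refine sum_congr rfl fun j _ => ?_
      rw [Algebra.smul_def]
      ring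
    rw [h2] at hg
    rcases mul_eq_zero.1 hg with h3 | h3
    · exact absurd h3 hη
    · exact h3
  have h2 : p = 0 := by
    by_contra hne
    exact ht ⟨p, hne, h1⟩
  have h3 : p.coeff (e i) = g i := by
    rw [hp, Polynomial.finsetSum_coeff]
    rw [Finset.sum_eq_single i]
    · rw [Polynomial.coeff_monomial, if_pos rfl]
    · intro j _ hj
      rw [Polynomial.coeff_monomial, if_neg]
      intro h
      exact hj (he h)
    · intro h
      exact absurd (mem_univ i) h
  rw [← h3, h2, Polynomial.coeff_zero]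

include hb hD in
/-- joint complete equidistribution for several transcendental bases `t` -/
theorem main_windows (hM : S_MOD) (hP : S_PERT) (hS : S_SUM) (r : ℕ) (t : Fin r → ℝ)
    (ht : Function.Injective t) (ht1 : ∀ i, 1 < t i)
    (hbt : ∀ i, Irrational (Real.log (t i) / Real.log b)) (htr : ∀ i, Transcendental ℚ (t i))
    (η : Fin r → ℝ) (hη : ∀ i, η i ≠ 0) (θ : ℕ → Fin r × ℕ → ℝ) :
    ∀ᵐ ω ∂P, ∀ (m : ℕ) (p : Fin m → Fin r × ℕ), Function.Injective p → EquiTorus fun n k =>
      η (p k).1 * (∑' j, D j ω / b ^ (j + 1)) * t (p k).1 ^ (n + (p k).2) + θ n (p k) := by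
  rw [ae_all_iff]
  intro m
  rw [ae_all_iff]
  intro p
  by_cases hp : Function.Injective p
  · have h1 := main_joint P b hb D hD hM hP hS r t ht ht1 hbt m (fun k => (p k).1)
      (fun k => η (p k).1 * t (p k).1 ^ (p k).2) (fun i => ?_) (fun n k => θ n (p k))
    · filter_upwards [h1] with ω hω _
      have e : (fun (n : ℕ) (k : Fin m) => η (p k).1 * (∑' j, D j ω / b ^ (j + 1)) *
          t (p k).1 ^ (n + (p k).2) + θ n (p k)) = fun (n : ℕ) (k : Fin m) =>
          η (p k).1 * t (p k).1 ^ (p k).2 * (∑' j, D j ω / b ^ (j + 1)) * t (p k).1 ^ n +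
            θ n (p k) := by
        funext n k
        rw [pow_add]
        ring
      rw [e]
      exact hω
    · have h2 := lin_powG (κ := {k : Fin m // (p k).1 = i}) (t i) (htr i)
        (fun k => (p k.1).2) (fun k k' hkk => by
          apply Subtype.ext
          apply hp
          apply Prod.ext
          · rw [k.2, k'.2]
          · exact hkk) (η i) (hη i)
      have e : (fun k : {k : Fin m // (p k).1 = i} => η (p k.1).1 * t (p k.1).1 ^ (p k.1).2) =
          fun k : {k : Fin m // (p k).1 = i} => η i * t i ^ (p k.1).2 := by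
        funext k
        rw [k.2]
      rw [e]
      exact h2
  · exact Eventually.of_forall fun ω h => absurd h hp

end

lemma exp_ne_pi : Real.exp 1 ≠ π := by
  have h1 := Real.exp_one_lt_d9
  have h2 := Real.pi_gt_three
  linarith

lemma epi_inj : Function.Injective (![Real.exp 1, π] : Fin 2 → ℝ) := by
  intro i j hij
  fin_cases i <;> fin_cases j
  · rfl
  · exact absurd hij exp_ne_pi
  · exact absurd hij exp_ne_pi.symm
  · rfl

end Pool.Agent.R430.RG
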