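import Mathlib
import Pool.Agent.R430.RG.Stm

/-!
# RG-MOD: uniform distribution and finite changes
-/

set_option autoImplicit false

open Finset Filter Topology MeasureTheory ProbabilityTheory
open scoped Real

namespace Pool.Agent.R430.RG

open Pool.Agent.R739.RD Pool.Agent.H534R3.UDist

/-- two counts which differ by at most a constant have the same density -/
private lemma tendsto_of_close (f g : ℕ → ℕ) (K : ℕ) (l : ℝ)
    (h1 : ∀ N, f N ≤ g N + K) (h2 : ∀ N, g N ≤ f N + K)
    (hf : Tendsto (fun N : ℕ => (f N : ℝ) / (N : ℝ)) atTop (𝓝 l)) :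
    Tendsto (fun N : ℕ => (g N : ℝ) / (N : ℝ)) atTop (𝓝 l) := by
  have h3 : Tendsto (fun N : ℕ => (K : ℝ) / (N : ℝ)) atTop (𝓝 0) :=
    tendsto_const_div_atTop_nhds_zero_nat _
  have h4 := hf.sub h3
  have h5 := hf.add h3
  rw [sub_zero] at h4
  rw [add_zero] at h5
  refine tendsto_of_tendsto_of_tendsto_of_le_of_le h4 h5 ?_ ?_
  · intro N
    have h6 : (f N : ℝ) ≤ g N + K := by exact_mod_cast h1 N
    have h7 : (f N : ℝ) / N - K / N = ((f N : ℝ) - K) / N := by ring
    change (f N : ℝ) / N - K / N ≤ _
    rw [h7]
    exact div_le_div_of_nonneg_right (by linarith) (Nat.cast_nonneg _)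
  · intro N
    have h6 : (g N : ℝ) ≤ f N + K := by exact_mod_cast h2 N
    have h7 : (f N : ℝ) / N + K / N = ((f N : ℝ) + K) / N := by ring
    change _ ≤ (f N : ℝ) / N + K / N
    rw [h7]
    exact div_le_div_of_nonneg_right h6 (Nat.cast_nonneg _)

theorem ud_mod : S_MOD := by
  intro x y hxy hx s t hs hst ht
  obtain ⟨n0, hn0⟩ := eventually_atTop.1 hxy
  have key : ∀ (x y : ℕ → ℝ), (∀ n, n0 ≤ n → x n = y n) → ∀ N : ℕ,
      ((range N).filter (fun n => s ≤ Int.fract (x n) ∧ Int.fract (x n) < t)).card ≤
      ((range N).filter (fun n => s ≤ Int.fract (y n) ∧ Int.fract (y n) < t)).card + n0 := by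
    intro x y h N
    have h1 : (range N).filter (fun n => s ≤ Int.fract (x n) ∧ Int.fract (x n) < t) ⊆
        (range N).filter (fun n => s ≤ Int.fract (y n) ∧ Int.fract (y n) < t) ∪ range n0 := by
      intro n hn
      rw [mem_filter, mem_range] at hn
      rw [mem_union, mem_filter, mem_range, mem_range]
      by_cases h2 : n < n0
      · exact Or.inr h2
      · left
        rw [← h n (by omega)]
        exact hn
    refine (card_le_card h1).trans ((card_union_le _ _).trans ?_)
    rw [card_range]
  exact tendsto_of_close _ _ n0 _ (key x y hn0) (key y x (fun n hn => (hn0 n hn).symm))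
    (hx s t hs hst ht)

theorem ud_of_equi : S_EQ := by
  intro x hx s t hs hst ht
  rcases hst.eq_or_lt with rfl | hst'
  · have h1 : ∀ N : ℕ, ((range N).filter
        (fun n => s ≤ Int.fract (x n) ∧ Int.fract (x n) < s)).card = 0 := by
      intro N
      rw [card_eq_zero, filter_eq_empty_iff]
      rintro n _ ⟨h2, h3⟩
      exact absurd h2 (not_le.2 h3)
    simp only [h1, sub_self, Nat.cast_zero, zero_div]
    exact tendsto_const_nhds
  · have h1 := hx s t hs hst' ht
    refine tendsto_of_close _ _ 1 _ ?_ ?_ h1
    · intro N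
      have h2 : (Icc 1 N).filter (fun n => s ≤ Int.fract (x n) ∧ Int.fract (x n) < t) ⊆
          (range N).filter (fun n => s ≤ Int.fract (x n) ∧ Int.fract (x n) < t) ∪ {N} := by
        intro n hn
        rw [mem_filter, mem_Icc] at hn
        rw [mem_union, mem_filter, mem_range, mem_singleton]
        by_cases h3 : n = N
        · exact Or.inr h3
        · exact Or.inl ⟨by omega, hn.2⟩
      refine (card_le_card h2).trans ((card_union_le _ _).trans ?_)
      rw [card_singleton]
    · intro N
      have h2 : (range N).filter (fun n => s ≤ Int.fract (x n) ∧ Int.fract (x n) < t) ⊆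
          (Icc 1 N).filter (fun n => s ≤ Int.fract (x n) ∧ Int.fract (x n) < t) ∪ {0} := by
        intro n hn
        rw [mem_filter, mem_range] at hn
        rw [mem_union, mem_filter, mem_Icc, mem_singleton]
        by_cases h3 : n = 0
        · exact Or.inr h3
        · exact Or.inl ⟨by omega, hn.2⟩
      refine (card_le_card h2).trans ((card_union_le _ _).trans ?_)
      rw [card_singleton]

end Pool.Agent.R430.RG
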