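import Pool.Agent.R430.RG.Stm
import Pool.Agent.R430.RB.Near

/-!
# RG-PERT: sequences asymptotic to `c t ^ n` (helper997 for helper430)
-/

set_option autoImplicit false

open Finset Filter Topology
open scoped Real

namespace Pool.Agent.R430.RG

open Pool.Agent.R739.RD Pool.Agent.H534R3.UDist

private lemma ee_sub_le' (x y : ℝ) : ‖ee x - ee y‖ ≤ 2 * π * |x - y| := by
  have h1 : ee x - ee y = ee y * (ee (x - y) - 1) := by
    rw [mul_sub, mul_one, ← ee_add]
    congr 2
    ring
  rw [h1, norm_mul, norm_ee, one_mul]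
  have h2 := Real.norm_exp_I_mul_ofReal_sub_one_le (x := 2 * π * (x - y))
  have h3 : ee (x - y) = Complex.exp (Complex.I * ((2 * π * (x - y) : ℝ) : ℂ)) := by
    rw [ee]
    congr 1
    push_cast
    ring
  rw [h3]
  refine h2.trans ?_
  rw [Real.norm_eq_abs, abs_mul, abs_of_pos (by positivity : (0 : ℝ) < 2 * π)]

private lemma geo_bound {α : ℝ} (hα : Irrational α) (β : ℝ) (h : ℕ) (hh : 1 ≤ h) (N : ℕ) :
    ‖∑ n ∈ Finset.range N, ee ((h : ℝ) * ((n : ℝ) * α + β))‖ ≤
      2 / ‖ee ((h : ℝ) * α) - 1‖ := by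
  have hirr : Irrational ((h : ℝ) * α) := by
    have hh0 : h ≠ 0 := by omega
    exact hα.natCast_mul hh0
  have hz : ee ((h : ℝ) * α) - 1 ≠ 0 := sub_ne_zero.2 (RB.ee_ne_one hirr)
  have hzn : 0 < ‖ee ((h : ℝ) * α) - 1‖ := norm_pos_iff.2 hz
  have h1 : ∑ n ∈ Finset.range N, ee ((h : ℝ) * ((n : ℝ) * α + β)) =
      (∑ n ∈ Finset.range N, ee ((h : ℝ) * α) ^ n) * ee ((h : ℝ) * β) := by
    rw [Finset.sum_mul]
    refine Finset.sum_congr rfl fun n _ => ?_
    rw [← RB.ee_nat_mul, ← ee_add]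
    congr 1
    ring
  rw [h1, norm_mul, norm_ee, mul_one, geom_sum_eq (RB.ee_ne_one hirr), norm_div]
  apply div_le_div_of_nonneg_right _ hzn.le
  refine (norm_sub_le _ _).trans ?_
  rw [norm_pow, norm_ee, one_pow, norm_one]
  norm_num

/-- a sequence with bounded distance tending to zero from `n α + β` is uniformly distributed -/
private lemma ud_near {α β : ℝ} (hα : Irrational α) (x : ℕ → ℝ)
    (hx : Tendsto (fun n : ℕ => x n - ((n : ℝ) * α + β)) atTop (𝓝 0)) : UD x := by
  apply ud_of_weyl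
  intro h hh
  have hd : Tendsto (fun n : ℕ => 2 * π * (h * |x n - ((n : ℝ) * α + β)|)) atTop (𝓝 0) := by
    have h1 := hx.abs
    rw [abs_zero] at h1
    have h2 := (h1.const_mul (h : ℝ)).const_mul (2 * π)
    simpa using h2
  have hces := hd.cesaro
  have hlim : Tendsto (fun N : ℕ => (2 / ‖ee ((h : ℝ) * α) - 1‖) / (N : ℝ)) atTop (𝓝 0) :=
    tendsto_const_div_atTop_nhds_zero_nat _
  have hsum := hlim.add hces
  rw [add_zero] at hsum
  refine squeeze_zero (fun N => by positivity) (fun N => ?_) hsum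
  have hb := geo_bound hα β h hh N
  have h1 : ‖∑ n ∈ Finset.range N, ee ((h : ℝ) * x n)‖ ≤
      2 / ‖ee ((h : ℝ) * α) - 1‖ +
        ∑ n ∈ Finset.range N, 2 * π * (h * |x n - ((n : ℝ) * α + β)|) := by
    have h2 : ∑ n ∈ Finset.range N, ee ((h : ℝ) * x n) =
        ∑ n ∈ Finset.range N, ee ((h : ℝ) * ((n : ℝ) * α + β)) +
        ∑ n ∈ Finset.range N, (ee ((h : ℝ) * x n) - ee ((h : ℝ) * ((n : ℝ) * α + β))) := by
      rw [← Finset.sum_add_distrib]
      refine Finset.sum_congr rfl fun n _ => ?_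
      ring
    rw [h2]
    refine (norm_add_le _ _).trans (add_le_add hb ?_)
    refine (norm_sum_le _ _).trans (Finset.sum_le_sum fun n _ => ?_)
    refine (ee_sub_le' _ _).trans (le_of_eq ?_)
    rw [← mul_sub, abs_mul, abs_of_nonneg (Nat.cast_nonneg h)]
  refine (div_le_div_of_nonneg_right h1 (Nat.cast_nonneg N)).trans (le_of_eq ?_)
  rw [add_div]
  congr 1
  rw [div_eq_inv_mul]

/-- RG-PERT -/
theorem pert : S_PERT := by
  intro b c t s hb hc ht hirr hs
  have hlogb : 0 < Real.log b := Real.log_pos hb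
  have ht0 : 0 < t := by linarith
  set r : ℕ → ℝ := fun n => s n / (c * t ^ n) with hr
  have hsr : ∀ n, s n = c * t ^ n * r n := by
    intro n
    have : c * t ^ n ≠ 0 := mul_ne_zero hc (pow_pos ht0 n).ne'
    rw [hr]
    field_simp
  have habs : ∀ n, 0 < r n → |s n| = |c| * t ^ n * r n := by
    intro n hn
    rw [hsr n, abs_mul, abs_mul, abs_of_pos hn, abs_of_pos (pow_pos ht0 n)]
  have hpos : ∀ᶠ n in atTop, 0 < r n := hs.eventually (lt_mem_nhds (by norm_num))
  have hc0 : 0 < |c| := abs_pos.2 hc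
  refine ⟨⟨(1 + t) / 2, by linarith, ?_⟩, ?_⟩
  · -- lacunary
    have hs1 : Tendsto (fun n => r (n + 1)) atTop (𝓝 1) := hs.comp (tendsto_add_atTop_nat 1)
    have hdiff : Tendsto (fun n => t * r (n + 1) - (1 + t) / 2 * r n) atTop
        (𝓝 (t * 1 - (1 + t) / 2 * 1)) := (hs1.const_mul t).sub (hs.const_mul _)
    have hdp : ∀ᶠ n in atTop, 0 < t * r (n + 1) - (1 + t) / 2 * r n :=
      hdiff.eventually (lt_mem_nhds (by linarith))
    have hpos1 : ∀ᶠ n in atTop, 0 < r (n + 1) := hs1.eventually (lt_mem_nhds (by norm_num))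
    filter_upwards [hpos, hpos1, hdp] with n h1 h2 h3
    rw [habs n h1, habs (n + 1) h2]
    refine ⟨by positivity, ?_⟩
    have h4 : 0 < |c| * t ^ n := by positivity
    have h5 := mul_pos h4 h3
    rw [pow_succ]
    nlinarith
  · -- uniformly distributed logarithms
    apply ud_near (β := Real.log |c| / Real.log b) hirr
    have hlogr : Tendsto (fun n => Real.log (r n) / Real.log b) atTop (𝓝 0) := by
      have h1 : Tendsto (fun n => Real.log (r n)) atTop (𝓝 (Real.log 1)) :=
        (Real.continuousAt_log one_ne_zero).tendsto.comp hs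
      rw [Real.log_one] at h1
      have h2 := h1.div_const (Real.log b)
      simpa using h2
    refine hlogr.congr' ?_
    filter_upwards [hpos] with n hn
    rw [habs n hn, Real.log_mul (by positivity) hn.ne', Real.log_mul (by positivity) (by positivity),
      Real.log_pow]
    field_simp
    ring

end Pool.Agent.R430.RG
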