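import Pool.Agent.R430.RG.Stm

/-! Piece RG-SUM: the dominating term of a sum of exponentials. -/

set_option autoImplicit false

open Finset Filter Topology

namespace Pool.Agent.R430.RG

theorem sum_dom : S_SUM := by
  classical
  intro r t c ht h1 ⟨i₀, hi₀⟩
  obtain ⟨i, hi, hmax⟩ := Finset.exists_max_image (univ.filter fun j => c j ≠ 0) t
    ⟨i₀, Finset.mem_filter.2 ⟨Finset.mem_univ _, hi₀⟩⟩
  have hci : c i ≠ 0 := (Finset.mem_filter.1 hi).2
  have hti : 0 < t i := lt_trans one_pos (h1 i)
  refine ⟨i, hci, ?_⟩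
  have h2 : ∀ j, Tendsto (fun n : ℕ => c j / c i * (t j / t i) ^ n) atTop
      (𝓝 (if j = i then 1 else 0)) := by
    intro j
    by_cases hj : j = i
    · rw [if_pos hj, hj, div_self hci, div_self hti.ne']
      simp
    · rw [if_neg hj]
      by_cases hcj : c j = 0
      · simp [hcj]
      · have h3 : t j < t i := lt_of_le_of_ne
          (hmax j (Finset.mem_filter.2 ⟨Finset.mem_univ _, hcj⟩)) (fun h => hj (ht h))
        have h4 : 0 ≤ t j / t i := div_nonneg (lt_trans one_pos (h1 j)).le hti.le
        have h5 : t j / t i < 1 := (div_lt_one hti).2 h3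
        have h6 := (tendsto_pow_atTop_nhds_zero_of_lt_one h4 h5).const_mul (c j / c i)
        rwa [mul_zero] at h6
  have h3 := tendsto_finsetSum univ fun j _ => h2 j
  rw [Finset.sum_ite_eq' univ i, if_pos (Finset.mem_univ i)] at h3
  refine h3.congr fun n => ?_
  rw [Finset.sum_div]
  refine Finset.sum_congr rfl fun j _ => ?_
  rw [div_pow, mul_div_mul_comm]

end Pool.Agent.R430.RG
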